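import Pool.Agent.Run7.h166.GM.Gaps

/-!
# Every enumeration of shifts is a union of 44 chains whose steps are gaps between consecutive primes

Let `s_i`, `i` in a set `T` of integers, be distinct integers which miss a residue class modulo every
prime `p ≤ 43`, and let all `r + s_i` be prime to `q`. Then `T` can be coloured with 44 colours such
that for any two consecutive elements `i < j` of a colour class the pattern `{s_i, s_j}` is realised by
consecutive primes: for every `ε > 0` and arbitrarily large `x`, for at least `x ^ (1 - ε)` integers
`n ≤ x`, `n ≡ r (mod q)`, the numbers `n + s_i` and `n + s_j` are consecutive primes.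

For example the set of all primes `> 43` (they miss the class of `0` modulo the primes `p ≤ 43`) is a
union of 44 sequences such that the difference of any two successive members of a sequence is a gap
between consecutive primes infinitely often. The conjecture predicts that one sequence is enough,
and this for every set of integers which misses a class modulo `2`.

Proof. By `DHL[45,2]` in the exact form of the starting file `ExactPatternsOf45`, among any 45 of the
shifts there are two which are realised by consecutive primes: the digraph of these pairs, directed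
from the smaller to the larger index, has no independent set of 45 vertices. By the theorem of Gallai
and Milgram, for finite acyclic digraphs a consequence of Hall's theorem, a finite part of `T` is
covered by 44 directed paths; infinite `T` follow by compactness.
-/

open Filter

namespace Pool.Agent.Results.MP_3ec731_nt.FortyFourChains

/-- **44 chains with steps that are gaps between consecutive primes.** -/
theorem result (q : ℕ) (hq : 0 < q) (r : ℤ) (T : Set ℤ) (s : ℤ → ℤ) (hs : Set.InjOn s T)
    (hadm : ∀ p : ℕ, p.Prime → p ≤ 43 → ∃ c : ℤ, ∀ i ∈ T, ¬ (p : ℤ) ∣ c + s i)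
    (hr : ∀ i ∈ T, IsCoprime (r + s i) (q : ℤ)) :
    ∃ f : ℤ → Fin 44, ∀ i ∈ T, ∀ j ∈ T, i < j → f i = f j →
      (∀ l ∈ T, i < l → l < j → f l ≠ f i) →
      ∀ ε : ℝ, 0 < ε → ∃ᶠ x : ℝ in atTop,
        x ^ (1 - ε) ≤ (Set.ncard {n : ℕ | (n : ℝ) ≤ x ∧ (n : ℤ) ≡ r [ZMOD q] ∧
          (∃ p : ℕ, p.Prime ∧ (p : ℤ) = n + min (s i) (s j)) ∧
          (∃ p : ℕ, p.Prime ∧ (p : ℤ) = n + max (s i) (s j)) ∧
          ∀ p : ℕ, p.Prime →
            ¬ ((n : ℤ) + min (s i) (s j) < p ∧ (p : ℤ) < n + max (s i) (s j))} : ℝ) :=
  Run7.h166.GM.chains44 q hq r T s hs hadm hr

end Pool.Agent.Results.MP_3ec731_nt.FortyFourChains
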