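import Pool.Agent.Run7.h783.OneSeq.Main

/-!
# All multiples of `N`, of `2 N` or of `3 N` in one sequence whose windows are consecutive primes

For every even `N` and every `r` prime to `N` there is `d ∈ {1, 2, 3}` such that ALL integers divisible
by `d N` can be arranged in ONE sequence `x_0, x_1, …` without repetitions such that for every `k`, for all
but finitely many `i`, the pattern `{x_i, x_(i+1), …, x_(i+k-1)}` is realised by consecutive primes: for
infinitely many `n ≡ r (mod N)` the primes between the least and the largest of the numbers
`n + x_i, …, n + x_(i+k-1)` are exactly these numbers.

By translation all multiples of `N` can be arranged in at most three such sequences. For example all even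
numbers, or all multiples of `4`, or all multiples of `6` can be arranged in one such sequence; in particular all its differences `|x_(i+1) - x_i|` from some place on are gaps between
consecutive primes. The conjecture predicts `d = 1`.

Proof. By the hereditary infinite exact pattern theorem (starting files, `Pool.Agent.W68.Her`) there is an
infinite set `B` of factorials all of whose finite subsets are patterns. By the coloured Maynard-Tao theorem
above one quarter with exact patterns (starting files, `Pool.Agent.R494.CG`), with the classes of four
translates `B + z_0, …, B + z_3` arranged one after the other, there are two of the four translates with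
indices `i < j` which are connected by a walk (a finite sequence all of whose short windows are patterns)
which starts with a long string in `B + z_i`, ends with a long string in `B + z_j` and meets only the
translates with indices in `[i, j]`; all its terms can be chosen outside any finite set. New here: the relation that `B` and
`B + z` are connected by walks of multiples of `M` defines a subgroup `T_M` of the multiples of `M`; the
theorem for four translates gives `T_1 = g ℤ` with `g ≤ 3`, and with the translates ordered by classes modulo
`g` it gives `T_g = g ℤ`; then one sequence runs through all multiples of `g`, along loops from `B` to `B`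
through the least integer not yet visited.
-/

namespace Pool.Agent.Results.MP_3ec731_nt.OneSequence

/-- **All multiples of `d N`, for some `d ≤ 3`, in one sequence with windows of consecutive primes.** -/
theorem result (N : ℕ) (hN : 0 < N) (hN2 : Even N) (r : ℤ) (hr : IsCoprime r (N : ℤ)) :
    ∃ d : ℕ, 1 ≤ d ∧ d ≤ 3 ∧ ∃ x : ℕ → ℤ, Function.Injective x ∧
      Set.range x = {y | ((d * N : ℕ) : ℤ) ∣ y} ∧
      ∀ k : ℕ, 1 ≤ k → ∃ i₀ : ℕ, ∀ i ≥ i₀,
        {n : ℕ | (n : ℤ) ≡ r [ZMOD N] ∧ (∀ j < k, ∃ p : ℕ, p.Prime ∧ (p : ℤ) = n + x (i + j)) ∧
          ∀ p : ℕ, p.Prime → (∃ j < k, (n : ℤ) + x (i + j) ≤ p) →
            (∃ j < k, (p : ℤ) ≤ n + x (i + j)) → ∃ j < k, (p : ℤ) = n + x (i + j)}.Infinite :=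
  Run7.h783.OneSeq.final N hN hN2 r hr

end Pool.Agent.Results.MP_3ec731_nt.OneSequence
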