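import Mathlib
import Pool.Agent.Run7.h756.CC.Gaps
import Pool.Agent.Run7.h756.CC.Inter

/-!
# Circles of shifts whose neighbours are consecutive primes, for several systems of shifts at once
-/

set_option autoImplicit false

namespace Pool.Agent.Results.MP_3ec731_nt.SimultaneousCircles

open Filter Finset
open Pool.Agent.Run7.h756.CC
open Pool.Agent.Run7.h166.TS (NH NHω rays)

open Classical in
/-- for every `η > 0` and arbitrarily large `N` at least `N ^ (1 - η)` of the numbers `1 ≤ n ≤ N` with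
`n ≡ r (mod q)` are such that `n + x` and `n + y` are primes and no prime lies between them -/
def ConsecutivePrimes (q r x y : ℕ) : Prop := ∀ η : ℝ, 0 < η → ∃ᶠ N : ℕ in atTop, (N : ℝ) ^ (1 - η) ≤
  (((Icc 1 N).filter (fun n : ℕ => n ≡ r [MOD q] ∧ (n + min x y).Prime ∧ (n + max x y).Prime ∧
    ∀ l, n + min x y < l → l < n + max x y → ¬ l.Prime)).card : ℝ)

open Classical in
/-- for every `η > 0` and arbitrarily large `N` at least `N ^ (1 - η)` primes `p ≤ N` with `p ≡ a (mod q)` are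
such that the next prime is `p + d` -/
def FrequentGap (q a d : ℕ) : Prop := ∀ η : ℝ, 0 < η → ∃ᶠ N : ℕ in atTop, (N : ℝ) ^ (1 - η) ≤
  (((Icc 1 N).filter (fun p : ℕ => p ≡ a [MOD q] ∧ p.Prime ∧ (p + d).Prime ∧
    ∀ l, p < l → l < p + d → ¬ l.Prime)).card : ℝ)

/-- the list `l` is a circle for the relation `adj`: its members are different, neighbours are related, the last
and the first member are related, and it is empty or has at least three members -/
def Circle (adj : ℕ → ℕ → Prop) (l : List ℕ) : Prop :=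
  l.Nodup ∧ l.IsChain adj ∧ (∀ x ∈ l.head?, ∀ y ∈ l.getLast?, adj y x) ∧ (l = [] ∨ 3 ≤ l.length)

/-- all members of `V` with at most `C` exceptions are arranged in the disjoint circles `e i` -/
def CoveredByCircles (adj : ℕ → ℕ → Prop) (V : Finset ℕ) (D C : ℕ) : Prop :=
  ∃ e : Fin D → List ℕ, (∀ i, Circle adj (e i)) ∧ (∀ i j, i ≠ j → List.Disjoint (e i) (e j)) ∧
    (∀ i, ∀ x ∈ e i, x ∈ V) ∧ (V.filter (fun x => ∀ i, x ∉ e i)).card ≤ C

theorem gap_of_pair {q r x y : ℕ} (h : ConsecutivePrimes q r x y) :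
    FrequentGap q (r + min x y) (max x y - min x y) := by
  classical
  intro η hη
  have h1 := (h (η / 2) (half_pos hη)).and_eventually ((pow_shift' 2 (by norm_num) hη).and
    (eventually_ge_atTop (min x y)))
  have h2 : ∃ᶠ N : ℕ in atTop, ((2 * N : ℕ) : ℝ) ^ (1 - η) ≤
      (((Icc 1 (2 * N)).filter (fun p : ℕ => p ≡ r + min x y [MOD q] ∧ p.Prime ∧
        (p + (max x y - min x y)).Prime ∧ ∀ l, p < l → l < p + (max x y - min x y) → ¬ l.Prime)).card : ℝ) := by
    refine h1.mono ?_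
    rintro N ⟨hN1, hN2, hN3⟩
    refine hN2.trans (hN1.trans ?_)
    rw [Nat.cast_le]
    refine Finset.card_le_card_of_injOn (fun n => n + min x y) ?_ (fun a _ b _ h => by simpa using h)
    intro n hn
    rw [mem_coe, mem_filter, mem_Icc] at hn
    obtain ⟨⟨hn1, hn2⟩, hn3, hn4, hn5, hn6⟩ := hn
    have hxy : min x y ≤ max x y := min_le_max
    have e : n + min x y + (max x y - min x y) = n + max x y := by omega
    rw [mem_coe, mem_filter, mem_Icc]
    show (1 ≤ n + min x y ∧ n + min x y ≤ 2 * N) ∧ n + min x y ≡ r + min x y [MOD q] ∧ (n + min x y).Prime ∧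
        (n + min x y + (max x y - min x y)).Prime ∧
        ∀ l, n + min x y < l → l < n + min x y + (max x y - min x y) → ¬ l.Prime
    rw [e]
    exact ⟨⟨by omega, by omega⟩, hn3.add_right _, hn4, hn5, hn6⟩
  have htend : Tendsto (fun N : ℕ => 2 * N) atTop atTop :=
    tendsto_atTop_mono (fun N => (by omega : N ≤ 2 * N)) tendsto_id
  exact htend.frequently h2

theorem FrequentGap.congr {q a b d : ℕ} (hab : a ≡ b [MOD q]) (h : FrequentGap q a d) : FrequentGap q b d := by
  classical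
  intro η hη
  refine (h η hη).mono fun N hN => hN.trans ?_
  rw [Nat.cast_le]
  refine card_le_card (monotone_filter_right _ ?_)
  intro n _ hn
  exact ⟨hn.1.trans hab, hn.2⟩

theorem nh_system (K : ℕ) (hK : ∀ q r : ℕ, 1 ≤ q → ∀ X : Fin 4 × Fin K → ℕ, Function.Injective X →
    (∀ u, Nat.Coprime (r + X u) q) →
    (∀ p : ℕ, p.Prime → p ≤ 4 → ∃ s : ℤ, ∀ u, ¬ (p : ℤ) ∣ s + X u) →
    ∃ u v : Fin 4 × Fin K, u.1 ≠ v.1 ∧ PairP q r (X u) (X v)) {q r : ℕ} (hq : 1 ≤ q) {V : Finset ℕ}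
    {f : ℕ → ℕ} (hf : Set.InjOn f V) (hcop : ∀ v ∈ V, Nat.Coprime (r + f v) q)
    (hloc : ∀ p : ℕ, p.Prime → p ≤ 3 → ∃ s : ℕ, ∀ v ∈ V, ¬ f v ≡ s [MOD p]) :
    NH (fun x y => ConsecutivePrimes q r (f x) (f y)) V 3 K := by
  intro X hX hXV
  refine hK q r hq (fun u => f (X u)) ?_ (fun u => hcop _ (hXV u)) ?_
  · intro u v h
    exact hX (hf (mem_coe.2 (hXV u)) (mem_coe.2 (hXV v)) h)
  · intro p hp hp4
    have hp3 : p ≤ 3 := by
      rcases Nat.lt_or_ge p 4 with h | h
      · omega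
      · have h4 : p = 4 := by omega
        subst h4
        exact absurd hp (by norm_num)
    obtain ⟨s, hs⟩ := hloc p hp hp3
    refine ⟨-(s : ℤ), fun u hd => hs _ (hXV u) ?_⟩
    have h1 : (p : ℤ) ∣ (f (X u) : ℤ) - s := by
      have : -(s : ℤ) + f (X u) = (f (X u) : ℤ) - s := by ring
      rwa [this] at hd
    exact (Nat.modEq_iff_dvd.2 h1).symm

theorem isChain_mem {R S : ℕ → ℕ → Prop} {V : Finset ℕ} (h : ∀ x ∈ V, ∀ y ∈ V, R x y → S x y) (l : List ℕ) :
    (∀ x ∈ l, x ∈ V) → l.IsChain R → l.IsChain S := by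
  induction l with
  | nil => exact fun _ _ => List.isChain_nil
  | cons x l ih =>
    intro hl hc
    cases l with
    | nil => exact List.isChain_singleton _
    | cons y l =>
      rw [List.isChain_cons_cons] at hc ⊢
      exact ⟨h x (hl x (by simp)) y (hl y (by simp)) hc.1, ih (fun z hz => hl z (by simp [hz])) hc.2⟩

/-- **Circles for `m` systems of shifts at once.** -/
theorem result (m : ℕ) (hm : 1 ≤ m) : ∃ D C : ℕ, (m = 1 → D = 3) ∧ (m = 2 → D = 17) ∧
    -- (1) finite sets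
    (∀ (V : Finset ℕ) (q r : Fin m → ℕ) (f : Fin m → ℕ → ℕ), (∀ i, 1 ≤ q i) →
      (∀ i, Set.InjOn (f i) V) → (∀ i, ∀ v ∈ V, Nat.Coprime (r i + f i v) (q i)) →
      (∀ i, ∀ p : ℕ, p.Prime → p ≤ 3 → ∃ s : ℕ, ∀ v ∈ V, ¬ f i v ≡ s [MOD p]) →
      CoveredByCircles (fun x y => ∀ i, ConsecutivePrimes (q i) (r i) (f i x) (f i y)) V D C) ∧
    -- (2) gaps in residue classes
    (∀ (V : Finset ℕ) (q a : Fin m → ℕ) (f : Fin m → ℕ → ℕ), (∀ i, 1 ≤ q i) →
      (∀ i, Nat.Coprime (a i) (q i)) → (∀ i, Set.InjOn (f i) V) → (∀ i, ∀ v ∈ V, 6 * q i ∣ f i v) →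
      CoveredByCircles (fun x y => ∀ i, FrequentGap (q i) (a i) (max (f i x) (f i y) - min (f i x) (f i y)))
        V D C) ∧
    -- (3) infinite sets
    (∀ (V : Set ℕ), V.Infinite → ∀ (q r : Fin m → ℕ) (f : Fin m → ℕ → ℕ), (∀ i, 1 ≤ q i) →
      (∀ i, Set.InjOn (f i) V) → (∀ i, ∀ v ∈ V, Nat.Coprime (r i + f i v) (q i)) →
      (∀ i, ∀ p : ℕ, p.Prime → p ≤ 3 → ∃ s : ℕ, ∀ v ∈ V, ¬ f i v ≡ s [MOD p]) →
      ∃ e : Fin D → ℕ → ℕ, (∀ j n, e j n ∈ V) ∧ Function.Injective (fun u : Fin D × ℕ => e u.1 u.2) ∧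
        (V \ Set.range (fun u : Fin D × ℕ => e u.1 u.2)).Finite ∧
        ∀ j n i, ConsecutivePrimes (q i) (r i) (f i (e j n)) (f i (e j (n + 1)))) := by
  classical
  obtain ⟨D, hD1, hD2, hD0, hRP⟩ : ∃ D : ℕ, (m = 1 → D = 3) ∧ (m = 2 → D = 17) ∧ 1 ≤ D ∧ RP m 3 (D + 1) := by
    by_cases h1 : m = 1
    · subst h1
      exact ⟨3, fun _ => rfl, fun h => by omega, by norm_num, rp_one 3⟩
    by_cases h2 : m = 2
    · subst h2
      exact ⟨17, fun h => by omega, fun _ => rfl, by norm_num, rp_two⟩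
    · obtain ⟨R, hR1, hR⟩ := rp_exists m 3
      have hR4 : 4 ≤ R := by
        have : NeZero m := ⟨by omega⟩
        obtain ⟨T, i, hT, -⟩ := hR (fun _ _ => 0) (fun _ _ => rfl)
        have := card_le_univ T
        rw [Fintype.card_fin] at this
        omega
      exact ⟨R - 1, fun h => absurd h h1, fun h => absurd h h2, by omega, by
        rwa [Nat.sub_add_cancel hR1]⟩
  obtain ⟨K, hK, hNH⟩ := nhP
  obtain ⟨K', hK', hint⟩ := nh_inter (K := K) hm hRP hK
  obtain ⟨C, hC⟩ := circles_inter (K := K) hm hRP hK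
  have main : ∀ (V : Finset ℕ) (q r : Fin m → ℕ) (f : Fin m → ℕ → ℕ), (∀ i, 1 ≤ q i) →
      (∀ i, Set.InjOn (f i) V) → (∀ i, ∀ v ∈ V, Nat.Coprime (r i + f i v) (q i)) →
      (∀ i, ∀ p : ℕ, p.Prime → p ≤ 3 → ∃ s : ℕ, ∀ v ∈ V, ¬ f i v ≡ s [MOD p]) →
      CoveredByCircles (fun x y => ∀ i, ConsecutivePrimes (q i) (r i) (f i x) (f i y)) V D C := by
    intro V q r f hq hf hcop hloc
    obtain ⟨e, ⟨he1, he2, he3⟩, hc⟩ := hC (fun i x y => ConsecutivePrimes (q i) (r i) (f i x) (f i y))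
      (fun i x y h => pairP_symm _ _ _ _ h) id Function.injective_id V
      (fun i => nh_system K hNH (hq i) (hf i) (hcop i) (hloc i))
    exact ⟨e, fun i => ⟨(he1 i).1, (he1 i).2.1, (he1 i).2.2.2, (he1 i).2.2.1⟩, he2, he3, hc⟩
  refine ⟨D, C, hD1, hD2, main, ?_, ?_⟩
  · intro V q a f hq ha hf hdvd
    have h6 : ∀ i, ∀ v ∈ V, q i ∣ f i v := fun i v hv => (Dvd.intro_left 6 rfl).trans (hdvd i v hv)
    obtain ⟨e, he1, he2, he3, he4⟩ := main V q a f hq hf (fun i v hv => by
      obtain ⟨b, hb⟩ := h6 i v hv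
      rw [hb, Nat.coprime_add_mul_left_left]
      exact ha i) (fun i p hp hp3 => by
      refine ⟨1, fun v hv h => ?_⟩
      have h1 : p ∣ f i v := by
        have h2 : p ∣ 6 * q i := by
          have h3 : p = 2 ∨ p = 3 := by
            have := hp.two_le
            omega
          rcases h3 with rfl | rfl
          · exact Dvd.dvd.mul_right (by norm_num) _
          · exact Dvd.dvd.mul_right (by norm_num) _
        exact h2.trans (hdvd i v hv)
      have h2 : f i v ≡ 0 [MOD p] := (Nat.modEq_zero_iff_dvd).2 h1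
      have h3 := (h2.symm.trans h)
      have h4 : p ∣ 1 := (Nat.modEq_zero_iff_dvd).1 h3.symm
      exact hp.one_lt.ne' (Nat.dvd_one.1 h4))
    have key : ∀ x ∈ V, ∀ y ∈ V, (∀ i, ConsecutivePrimes (q i) (a i) (f i x) (f i y)) →
        ∀ i, FrequentGap (q i) (a i) (max (f i x) (f i y) - min (f i x) (f i y)) := by
      intro x hx y hy h i
      refine FrequentGap.congr ?_ (gap_of_pair (h i))
      have h1 : q i ∣ min (f i x) (f i y) := by
        rcases min_choice (f i x) (f i y) with h2 | h2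
        · rw [h2]; exact h6 i x hx
        · rw [h2]; exact h6 i y hy
      have h2 := (Nat.modEq_zero_iff_dvd).2 h1
      simpa using (Nat.ModEq.refl (a i)).add h2
    refine ⟨e, fun j => ⟨(he1 j).1, ?_, ?_, (he1 j).2.2.2⟩, he2, he3, he4⟩
    · exact isChain_mem key _ (he3 j) (he1 j).2.1
    · intro x hx y hy
      exact key y (he3 j y (List.mem_of_getLast? hy)) x (he3 j x (List.mem_of_head? hx))
        ((he1 j).2.2.1 x hx y hy)
  · intro V hV q r f hq hf hcop hloc
    set v : ℕ → ℕ := Nat.nth (· ∈ V) with hv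
    have hVinf : (Set.ofPred (· ∈ V)).Infinite := hV
    have hvm : StrictMono v := Nat.nth_strictMono hVinf
    have hvV : ∀ n, v n ∈ V := fun n => Nat.nth_mem_of_infinite hVinf n
    have hvs : ∀ x ∈ V, ∃ n, v n = x := fun x hx => ⟨Nat.count (· ∈ V) x, Nat.nth_count hx⟩
    have hNHω : NHω (fun i j => ∀ l, ConsecutivePrimes (q l) (r l) (f l (v i)) (f l (v j))) D K' 0 := by
      intro X hX _
      have h1 := hint (fun i x y => ConsecutivePrimes (q i) (r i) (f i x) (f i y))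
        (fun i x y h => pairP_symm _ _ _ _ h) (univ.image (fun u => v (X u))) (fun i =>
          nh_system K hNH (hq i) ((hf i).mono (by
            intro x hx
            obtain ⟨u, -, rfl⟩ := mem_image.1 (mem_coe.1 hx)
            exact hvV _)) (by
            intro x hx
            obtain ⟨u, -, rfl⟩ := mem_image.1 hx
            exact hcop i _ (hvV _)) (by
            intro p hp hp3
            obtain ⟨s, hs⟩ := hloc i p hp hp3
            refine ⟨s, fun x hx => ?_⟩
            obtain ⟨u, -, rfl⟩ := mem_image.1 hx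
            exact hs _ (hvV _)))
      exact h1 (fun u => v (X u)) (hvm.injective.comp hX) (fun u => mem_image_of_mem _ (mem_univ _))
    obtain ⟨e, he1, he2, he3⟩ := rays (fun i j hij l => pairP_symm _ _ _ _ (hij l)) hD0 hNHω
    refine ⟨fun i n => v (e i n), fun i n => hvV _, hvm.injective.comp he1, ?_, fun j n i => he3 j n i⟩
    refine (he2.image v).subset ?_
    rintro x ⟨hx1, hx2⟩
    obtain ⟨n, rfl⟩ := hvs x hx1
    refine ⟨n, ?_, rfl⟩
    rintro ⟨p, hp⟩
    exact hx2 ⟨p, by simp only at hp ⊢; rw [hp]⟩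

end Pool.Agent.Results.MP_3ec731_nt.SimultaneousCircles
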