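import Pool.Agent.Run7.h166.TS.Consec

/-!
# Every infinite set of shifts can be arranged in three sequences whose windows are realised by
# consecutive primes

Let `V` be an infinite set of natural numbers which, up to finitely many elements, misses a residue class
modulo every prime: for instance the set of all primes, of all powers of two, of the squares of the even
numbers, or any sequence such that each prime divides all but finitely many of its members. Then all but
finitely many elements of `V` can be arranged (in a suitable order) in THREE sequences such that for
every `k` any `k` successive members of a sequence, from some point on, are a pattern which is realised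
by `k` consecutive primes for at least `N ^ (1 - η)` integers `n ≤ N`, for arbitrarily large `N`. The
conjecture predicts this for any arrangement, for instance for the natural one, a single sequence. For a
fixed `k` it is enough that `V` misses a class modulo the primes `p ≤ B k`, again up to finitely many
elements: for instance all but finitely many multiples of `∏_{p ≤ B k} p` can be arranged in three
sequences whose windows of length `k` are patterns of consecutive primes infinitely often.

More precisely, `V` contains three sequences (hubs) such that, for every `k`, every element `x` of `V`
with finitely many exceptions forms a pattern of consecutive primes with ANY at most `k` members of one of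
the three hubs, provided that they are far enough out.

Proof. The coloured Maynard-Tao theorem with a constant above one quarter (starting files,
`Pool.Agent.TH899.UG.Uni.exactU`) says that of any `4 S` large blocks of shifts more than `S (1 + c')` are hit
by primes at once, and by a choice of residue classes the primes hit form an exact pattern `W`. For a
nonprincipal ultrafilter `U` on `V` call `x` absorbed by `U` on the level `k` if for `U`-almost all `y_1`,
..., for `U`-almost all `y_k` the set `{x, y_1, …, y_k}` is a pattern of consecutive primes. If there were four
ultrafilters none of which absorbs the later ones, one could choose four groups of generic elements, group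
after group, such that `W` meets each group but the first one in fewer than `k` elements (intervals of
an exact pattern are exact patterns), which contradicts the theorem for large `S`. So three ultrafilters
absorb all but finitely many elements, for all `k` at the same time. The hubs are sequences of generic
elements, which are used as connectors in the arrangement.
-/

set_option autoImplicit false

open Filter Finset

namespace Pool.Agent.Results.MP_3ec731_nt.ThreeSequences

/-- The set `V` misses, up to finitely many elements, a residue class modulo every prime `p ≤ B`. -/
def Misses (V : Set ℕ) (B : ℕ) : Prop :=
  ∀ p : ℕ, p.Prime → p ≤ B → ∃ r : ℕ, {v ∈ V | v ≡ r [MOD p]}.Finite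

open Classical in
/-- The set `F` of shifts is often realised by consecutive primes: for every `η > 0` there are arbitrarily
large `N` such that for at least `N ^ (1 - η)` integers `n` with `1 ≤ n ≤ N` the primes between `n + min F`
and `n + max F` are exactly the numbers `n + y`, `y ∈ F`. -/
def Realised (F : Finset ℕ) : Prop := ∀ η : ℝ, 0 < η → ∃ᶠ N : ℕ in atTop, (N : ℝ) ^ (1 - η) ≤
  (((Icc 1 N).filter (fun n : ℕ => ∀ y : ℕ, (∃ a ∈ F, a ≤ y) → (∃ b ∈ F, y ≤ b) →
    ((n + y).Prime ↔ y ∈ F))).card : ℝ)

/-- **Three sequences with windows of consecutive primes.** There is a function `B` such that for every
infinite set `V` of natural numbers which misses a class modulo the primes up to `B k₀` for some `k₀ ≥ 1`, up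
to finitely many elements:
(1) there are three increasing sequences `h 0, h 1, h 2` in `V` such that for every `k` for which `V` misses a
class modulo the primes up to `B k` all `x ∈ V` with finitely many exceptions have the following property: for
some `i` and `M` every set consisting of `x` and of at most `k` of the numbers `h i m`, `m ≥ M`, is often
realised by consecutive primes;
(2) there are three sequences `e 0, e 1, e 2` which contain together every element of `V` at most once, and
all but finitely many elements, such that for every such `k` and all large `t` the sets
`{e i t, e i (t + 1), …, e i (t + k - 1)}` are often realised by consecutive primes. -/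
theorem result : ∃ B : ℕ → ℕ, ∀ V : Set ℕ, V.Infinite → ∀ k₀, 1 ≤ k₀ → Misses V (B k₀) →
    (∃ h : Fin 3 → ℕ → ℕ, (∀ i, StrictMono (h i)) ∧ (∀ i n, h i n ∈ V) ∧
      Function.Injective (fun p : Fin 3 × ℕ => h p.1 p.2) ∧
      ∀ k, Misses V (B k) → {x ∈ V | ¬ ∃ i M, ∀ F : Finset ℕ, (∀ m ∈ F, M ≤ m) → F.card ≤ k →
        Realised (insert x (F.image (h i)))}.Finite) ∧
    ∃ e : Fin 3 → ℕ → ℕ, (∀ i n, e i n ∈ V) ∧ Function.Injective (fun p : Fin 3 × ℕ => e p.1 p.2) ∧
      (V \ Set.range (fun p : Fin 3 × ℕ => e p.1 p.2)).Finite ∧
      ∀ k, Misses V (B k) → ∀ᶠ t in atTop, ∀ i, Realised ((range k).image (fun j => e i (t + j))) :=
  Pool.Agent.Run7.h166.TS.consec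

end Pool.Agent.Results.MP_3ec731_nt.ThreeSequences
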